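import Mathlib

/-!
# MP_c8d5ab_co: prescribed lim inf of the closed complexity of pure morphic words

For every `k` there is an aperiodic pure morphic word `x` with `liminf cl_x(n) = k`.
-/

set_option autoImplicit false

open Filter

namespace Pool.Agent.Results.MP_c8d5ab_co.LimInfClosed

section defs

variable {A : Type}

/-- The list `w` is a factor of the infinite word `x`. -/
def IsFactor (x : ℕ → A) (w : List A) : Prop :=
  ∃ i, w = (List.range w.length).map (fun j => x (i + j))

/-- A closed word: `|w| ≤ 1`, or some `v ≠ w` occurs in `w` exactly twice, once as a beginning and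
once as an end of `w`. -/
def ClosedWord (w : List A) : Prop :=
  w.length ≤ 1 ∨ ∃ v : List A, v ≠ w ∧ v <+: w ∧ v <:+ w ∧
    {p : ℕ | p ≤ w.length ∧ v <+: w.drop p}.ncard = 2

/-- The closed complexity `cl_x(n)`. -/
noncomputable def cl (x : ℕ → A) (n : ℕ) : ℕ :=
  {w : List A | IsFactor x w ∧ w.length = n ∧ ClosedWord w}.ncard

/-- Not ultimately periodic. -/
def Aperiodic (x : ℕ → A) : Prop := ¬ ∃ N p : ℕ, 0 < p ∧ ∀ i, N ≤ i → x (i + p) = x i

/-- `x = φ^ω(a)` for a morphism `φ` such that `φ(a)` begins with `a` and `|φ^m(a)| → ∞`: all the words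
`φ^m(a)` are beginnings of `x`. -/
def PureMorphic (x : ℕ → A) : Prop :=
  ∃ (φ : A → List A) (a : A), (∃ u, φ a = a :: u) ∧
    Tendsto (fun m => ((fun w : List A => w.flatMap φ)^[m] [a]).length) atTop atTop ∧
    ∀ m, (fun w : List A => w.flatMap φ)^[m] [a] =
      (List.range ((fun w : List A => w.flatMap φ)^[m] [a]).length).map x

end defs

section closed

variable {A : Type}

/-- `v` starts at position `p` of the word `x_i x_{i+1} … x_{i+n-1}`. -/
theorem occ_iff (x : ℕ → A) (i n p : ℕ) (v : List A) (hp : p ≤ n) :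
    v <+: ((List.range n).map (fun j => x (i + j))).drop p ↔
      p + v.length ≤ n ∧ ∀ j (hj : j < v.length), v[j] = x (i + p + j) := by
  rw [List.prefix_iff_eq_take]
  constructor
  · intro h
    have h1 := congrArg List.length h
    rw [List.length_take, List.length_drop, List.length_map, List.length_range] at h1
    have h2 : p + v.length ≤ n := by omega
    refine ⟨h2, fun j hj => ?_⟩
    have h3 : v[j] = (((((List.range n).map (fun j => x (i + j))).drop p).take v.length)[j]'(by
      rw [← h]; exact hj)) := by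
      congr 1
    rw [h3]
    simp [add_assoc]
  · rintro ⟨h1, h2⟩
    apply List.ext_getElem
    · simp; omega
    · intro j hj hj'
      rw [h2 j hj]
      simp [add_assoc]

/-- The closed words in terms of positions. -/
theorem closed_factor (x : ℕ → A) (i n : ℕ) (hn : 2 ≤ n)
    (h : ClosedWord ((List.range n).map (fun j => x (i + j)))) :
    ∃ l, 1 ≤ l ∧ l < n ∧ (∀ p < l, x (i + p) = x (i + (n - l) + p)) ∧
      ∀ p, p + l ≤ n → (∀ j < l, x (i + p + j) = x (i + j)) → p = 0 ∨ p = n - l := by
  classical
  rcases h with h | ⟨v, hne, hpre, hsuf, hcard⟩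
  · rw [List.length_map, List.length_range] at h
    omega
  · have hlen : ((List.range n).map (fun j => x (i + j))).length = n := by simp
    have hp0 := (occ_iff x i n 0 v (Nat.zero_le _)).mp (by simpa using hpre)
    have hvn : v.length < n := by
      rcases lt_or_eq_of_le (hpre.length_le.trans_eq hlen) with h1 | h1
      · exact h1
      · exact absurd (hpre.eq_of_length (h1.trans hlen.symm)) hne
    have hs : v <+: ((List.range n).map (fun j => x (i + j))).drop (n - v.length) := by
      rw [List.suffix_iff_eq_drop, hlen] at hsuf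
      rw [← hsuf]
    have hs' := (occ_iff x i n (n - v.length) v (Nat.sub_le _ _)).mp hs
    rw [hlen] at hcard
    set Z : Set ℕ := {p : ℕ | p ≤ n ∧ v <+: ((List.range n).map (fun j => x (i + j))).drop p} with hZ
    have hZ0 : 0 ∈ Z := ⟨Nat.zero_le _, by simpa using hpre⟩
    have hZ1 : n - v.length ∈ Z := ⟨Nat.sub_le _ _, hs⟩
    have hZ2 : Z = {0, n - v.length} := by
      have hfin : Z.Finite := Set.finite_of_ncard_ne_zero (by omega)
      refine (Set.eq_of_subset_of_ncard_le ?_ ?_ hfin).symm
      · rintro p (rfl | rfl)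
        · exact hZ0
        · exact hZ1
      · rw [hcard, Set.ncard_pair (by omega)]
    refine ⟨v.length, ?_, hvn, ?_, ?_⟩
    · by_contra h0
      have h0' : v = [] := List.length_eq_zero_iff.mp (by omega)
      have h1 : 1 ∈ Z := ⟨by omega, by rw [h0']; exact List.nil_prefix⟩
      rw [hZ2, h0'] at h1
      rcases h1 with h1 | h1
      · omega
      · rw [Set.mem_singleton_iff, List.length_nil] at h1; omega
    · intro p hp
      have e1 := hp0.2 p hp
      have e2 := hs'.2 p hp
      rw [add_zero] at e1
      rw [← e1, e2]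
    · intro p hp hj
      have h1 : p ∈ Z := by
        refine ⟨by omega, (occ_iff x i n p v (by omega)).mpr ⟨hp, fun j hj' => ?_⟩⟩
        have e1 := hp0.2 j hj'
        rw [add_zero] at e1
        rw [e1, hj j hj']
      rw [hZ2] at h1
      exact h1

/-- Constant words are closed. -/
theorem closed_replicate (n : ℕ) (c : A) : ClosedWord (List.replicate n c) := by
  classical
  by_cases hn : n ≤ 1
  · left; simpa using hn
  · right
    push Not at hn
    refine ⟨List.replicate (n - 1) c, ?_, ?_, ?_, ?_⟩
    · intro h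
      have := congrArg List.length h
      simp at this
      omega
    · rw [List.prefix_iff_eq_take]
      simp
    · rw [List.suffix_iff_eq_drop]
      simp
      omega
    · have : {p : ℕ | p ≤ (List.replicate n c).length ∧
          List.replicate (n - 1) c <+: (List.replicate n c).drop p} = {0, 1} := by
        ext p
        rw [Set.mem_ofPred_eq, List.length_replicate, List.drop_replicate]
        constructor
        · rintro ⟨h1, h2⟩
          have := h2.length_le
          simp at this
          simp
          omega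
        · intro h
          have hp : p ≤ 1 := by
            rcases h with rfl | h
            · omega
            · rw [Set.mem_singleton_iff] at h; omega
          refine ⟨by omega, ?_⟩
          rw [List.prefix_iff_eq_take]
          simp
          omega
      rw [this]
      exact Set.ncard_pair (by norm_num)

end closed

section automatic

variable {A : Type}

/-- The fixed point of the uniform morphism `c ↦ g c 0 · g c 1 ⋯ g c (M-1)`. -/
def auto (M : ℕ) (g : A → ℕ → A) (a : A) (n : ℕ) : A :=
  if _h : 2 ≤ M ∧ n ≠ 0 then g (auto M g a (n / M)) (n % M) else a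
termination_by n
decreasing_by exact Nat.div_lt_self (Nat.pos_of_ne_zero _h.2) _h.1

variable {M : ℕ} {g : A → ℕ → A} {a : A}

theorem auto_eq (hM : 2 ≤ M) (ha : g a 0 = a) (n : ℕ) :
    auto M g a n = g (auto M g a (n / M)) (n % M) := by
  by_cases hn : n = 0
  · subst hn
    rw [Nat.zero_div, Nat.zero_mod]
    have : auto M g a 0 = a := by
      unfold auto
      rw [dif_neg (by omega)]
    rw [this, ha]
  · conv_lhs => unfold auto
    rw [dif_pos ⟨hM, hn⟩]

theorem auto_zero : auto M g a 0 = a := by
  unfold auto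
  rw [dif_neg (by omega)]

theorem auto_mul_add (hM : 2 ≤ M) (ha : g a 0 = a) (q d : ℕ) (hd : d < M) :
    auto M g a (M * q + d) = g (auto M g a q) d := by
  rw [auto_eq hM ha, Nat.mul_add_mod, Nat.mod_eq_of_lt hd, Nat.mul_add_div (by omega),
    Nat.div_eq_of_lt hd, add_zero]

theorem auto_block (hM : 2 ≤ M) (ha : g a 0 = a) (j : ℕ) : ∀ q r, r < M ^ j →
    auto M g a q = a → auto M g a (M ^ j * q + r) = auto M g a r := by
  induction j with
  | zero =>
    intro q r hr hq
    rw [pow_zero, Nat.lt_one_iff] at hr
    subst hr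
    rw [pow_zero, one_mul, add_zero, hq, auto_zero]
  | succ j ih =>
    intro q r hr hq
    have e1 : M ^ (j + 1) * q + r = M * (M ^ j * q + r / M) + r % M := by
      have := Nat.div_add_mod r M
      rw [pow_succ]
      nlinarith
    have hmod : r % M < M := Nat.mod_lt _ (by omega)
    rw [e1, auto_mul_add hM ha _ _ hmod, ih q (r / M) (by
      rw [Nat.div_lt_iff_lt_mul (by omega), ← pow_succ]; exact hr) hq, ← auto_eq hM ha]

theorem auto_const (hM : 2 ≤ M) (ha : g a 0 = a) (c : A) (hc : ∀ d, g c d = c) (j : ℕ) :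
    ∀ q r, r < M ^ j → auto M g a q = c → auto M g a (M ^ j * q + r) = c := by
  induction j with
  | zero =>
    intro q r hr hq
    rw [pow_zero, Nat.lt_one_iff] at hr
    subst hr
    rw [pow_zero, one_mul, add_zero, hq]
  | succ j ih =>
    intro q r hr hq
    have e1 : M ^ (j + 1) * q + r = M * (M ^ j * q + r / M) + r % M := by
      have := Nat.div_add_mod r M
      rw [pow_succ]
      nlinarith
    have hmod : r % M < M := Nat.mod_lt _ (by omega)
    rw [e1, auto_mul_add hM ha _ _ hmod, ih q (r / M) (by
      rw [Nat.div_lt_iff_lt_mul (by omega), ← pow_succ]; exact hr) hq, hc]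

theorem flat_range (hM : 2 ≤ M) (ha : g a 0 = a) (N : ℕ) :
    ((List.range N).map (auto M g a)).flatMap (fun c => (List.range M).map (g c)) =
      (List.range (N * M)).map (auto M g a) := by
  induction N with
  | zero => simp
  | succ N ih =>
    rw [List.range_succ, List.map_append, List.flatMap_append, ih, Nat.succ_mul, List.range_add,
      List.map_append]
    congr 1
    simp only [List.map_cons, List.map_nil, List.flatMap_cons, List.flatMap_nil, List.append_nil,
      List.map_map]
    apply List.map_congr_left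
    intro d hd
    rw [List.mem_range] at hd
    rw [Function.comp_apply, mul_comm N M, auto_mul_add hM ha _ _ hd]

theorem pureMorphic_auto (hM : 2 ≤ M) (ha : g a 0 = a) : PureMorphic (auto M g a) := by
  have key : ∀ m, (fun w : List A => w.flatMap (fun c => (List.range M).map (g c)))^[m] [a] =
      (List.range (M ^ m)).map (auto M g a) := by
    intro m
    induction m with
    | zero => simp [auto_zero]
    | succ m ih =>
      rw [Function.iterate_succ_apply', ih, pow_succ]
      exact flat_range hM ha _
  refine ⟨fun c => (List.range M).map (g c), a, ?_, ?_, ?_⟩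
  · obtain ⟨M', rfl⟩ : ∃ M', M = M' + 1 := ⟨M - 1, by omega⟩
    refine ⟨(List.range M').map (fun d => g a (d + 1)), ?_⟩
    show (List.range (M' + 1)).map (g a) = _
    rw [List.range_succ_eq_map, List.map_cons, ha, List.map_map]
    rfl
  · have : (fun m => ((fun w : List A => w.flatMap (fun c => (List.range M).map (g c)))^[m]
        [a]).length) = fun m => M ^ m := by
      funext m
      rw [key]; simp
    rw [this]
    exact tendsto_pow_atTop_atTop_of_one_lt (by omega)
  · intro m
    rw [key]
    simp

end automatic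

section paperfolding

/-- The morphism `a → ab`, `b → cb`, `c → ad`, `d → cd` on the letters `(parity, fold)`:
`a = (0,0)`, `b = (1,0)`, `c = (0,1)`, `d = (1,1)`. -/
def gp (c : Bool × Bool) (d : ℕ) : Bool × Bool := if d = 0 then (false, c.1) else (true, c.2)

/-- The four letter paperfolding word. -/
def pf : ℕ → Bool × Bool := auto 2 gp (false, false)

theorem gp_zero : gp (false, false) 0 = (false, false) := rfl

theorem pf_even (q : ℕ) : pf (2 * q) = (false, (pf q).1) := by
  have := auto_mul_add (M := 2) (g := gp) (a := (false, false)) le_rfl gp_zero q 0 (by norm_num)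
  exact this

theorem pf_odd (q : ℕ) : pf (2 * q + 1) = (true, (pf q).2) := by
  have := auto_mul_add (M := 2) (g := gp) (a := (false, false)) le_rfl gp_zero q 1 (by norm_num)
  exact this

theorem pf_fst (n : ℕ) : (pf n).1 = decide (n % 2 = 1) := by
  rcases Nat.even_or_odd' n with ⟨q, rfl | rfl⟩
  · rw [pf_even]; simp
  · rw [pf_odd]; simp

/-- No factor of length `2^s` has a border. -/
theorem pf_unbordered (s : ℕ) : ∀ i l r : ℕ, 1 ≤ l → 1 ≤ r → l + r = 2 ^ s →
    ¬ ∀ p < l, pf (i + p) = pf (i + r + p) := by
  induction s with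
  | zero => intro i l r h1 h2 h3; omega
  | succ s ih =>
    intro i l r hl hr hlr h
    rw [pow_succ] at hlr
    -- the gap is even
    have h0 := h 0 hl
    have hr2 : r % 2 = 0 := by
      have e1 := congrArg Prod.fst h0
      rw [pf_fst, pf_fst, decide_eq_decide] at e1
      omega
    obtain ⟨r', rfl⟩ : ∃ r', r = 2 * r' := ⟨r / 2, by omega⟩
    obtain ⟨l', rfl⟩ : ∃ l', l = 2 * l' := ⟨l / 2, by omega⟩
    -- the gap is divisible by four
    have hr4 : r' % 2 = 0 := by
      rcases Nat.even_or_odd' i with ⟨j, rfl | rfl⟩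
      · have e1 : pf (2 * j) = pf (2 * (j + r')) := by
          have := h 0 hl
          rwa [add_zero, add_zero, ← mul_add] at this
        rw [pf_even, pf_even] at e1
        have e2 := congrArg Prod.snd e1
        rw [pf_fst, pf_fst, decide_eq_decide] at e2
        omega
      · have e1 : pf (2 * (j + 1)) = pf (2 * (j + 1 + r')) := by
          have := h 1 (by omega)
          have e3 : 2 * j + 1 + 1 = 2 * (j + 1) := by ring
          have e4 : 2 * j + 1 + 2 * r' + 1 = 2 * (j + 1 + r') := by ring
          rwa [e3, e4] at this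
        rw [pf_even, pf_even] at e1
        have e2 := congrArg Prod.snd e1
        rw [pf_fst, pf_fst, decide_eq_decide] at e2
        omega
    refine ih (i / 2) l' r' (by omega) (by omega) (by omega) ?_
    intro p hp
    -- the odd position `2 (i/2 + p) + 1` is in the window or the window starts at it
    have e1 : pf (2 * (i / 2 + p) + 1) = pf (2 * (i / 2 + r' + p) + 1) := by
      rcases Nat.even_or_odd' i with ⟨j, rfl | rfl⟩
      · have := h (2 * p + 1) (by omega)
        have e3 : 2 * j + (2 * p + 1) = 2 * (2 * j / 2 + p) + 1 := by omega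
        have e4 : 2 * j + 2 * r' + (2 * p + 1) = 2 * (2 * j / 2 + r' + p) + 1 := by omega
        rwa [e3, e4] at this
      · have := h (2 * p) (by omega)
        have e3 : 2 * j + 1 + (2 * p) = 2 * ((2 * j + 1) / 2 + p) + 1 := by omega
        have e4 : 2 * j + 1 + 2 * r' + (2 * p) = 2 * ((2 * j + 1) / 2 + r' + p) + 1 := by omega
        rwa [e3, e4] at this
    rw [pf_odd, pf_odd] at e1
    have e2 := congrArg Prod.snd e1
    apply Prod.ext
    · rw [pf_fst, pf_fst, decide_eq_decide]
      omega
    · exact e2

theorem pf_aperiodic : Aperiodic pf := by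
  rintro ⟨N, p, hp, h⟩
  obtain ⟨s, hs⟩ : ∃ s, p < 2 ^ s := ⟨p, Nat.lt_two_pow_self⟩
  refine pf_unbordered s N (2 ^ s - p) p (by omega) hp (by omega) ?_
  intro j _
  rw [← h (N + j) (by omega)]
  congr 1
  ring

theorem pf_cl (s : ℕ) : cl pf (2 ^ (s + 1)) = 0 := by
  unfold cl
  rw [Set.ncard_eq_zero (Set.Finite.subset (List.finite_length_eq _ _) (fun w hw => hw.2.1))]
  apply Set.eq_empty_of_forall_notMem
  rintro w ⟨⟨i, hi⟩, hlen, hcl⟩
  rw [hlen] at hi
  rw [hi] at hcl
  have h2 : 2 ≤ 2 ^ (s + 1) := by
    rw [pow_succ]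
    have := Nat.one_le_two_pow (n := s)
    omega
  obtain ⟨l, h3, h4, h5, _⟩ := closed_factor pf i _ h2 hcl
  exact pf_unbordered (s + 1) i l (2 ^ (s + 1) - l) h3 (by omega) (by omega) h5

end paperfolding

section openword

/-- A word with a long constant end, of length different from that of the constant beginning, is
open. -/
theorem open_word {A : Type} (W : ℕ → A) (z c0 c1 : A) (n s t R : ℕ) (hR0 : 1 ≤ R)
    (hs : ∀ p < s, W p = c0) (ht : ∀ p, n - t ≤ p → p < n → W p = c1) (hst : s + t < n)
    (hlast : W (n - t - 1) = z) (hfirst : s = 0 ∨ W s = z) (hz0 : 0 < s → c0 ≠ z) (hz1 : c1 ≠ z)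
    (hR : ∀ u, s ≤ u → u + R ≤ n - t → ∃ p, u ≤ p ∧ p < u + R ∧ W p = z) (htR : R ≤ t)
    (hne : s ≠ t) :
    ¬ ∃ l, 1 ≤ l ∧ l < n ∧ (∀ p < l, W p = W (n - l + p)) ∧
      ∀ p, p + l ≤ n → (∀ j < l, W (p + j) = W j) → p = 0 ∨ p = n - l := by
  rintro ⟨l, hl1, hln, hb, hocc⟩
  by_cases hlt : l < t
  · have h1 := hocc (n - l - 1) (by omega) (by
      intro j hj
      rw [hb j hj, ht (n - l + j) (by omega) (by omega), ht (n - l - 1 + j) (by omega) (by omega)])
    omega
  · push Not at hlt
    have hrun : ∀ j, l - t ≤ j → j < l → W j = c1 := by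
      intro j h1 h2
      rw [hb j h2]
      exact ht _ (by omega) (by omega)
    by_cases hls : l ≤ s
    · have h0 : c0 = c1 := by
        rw [← hs (l - 1) (by omega)]
        exact hrun _ (by omega) (by omega)
      rcases lt_or_eq_of_le hls with h1 | h1
      · have h2 := hocc 1 (by omega) (by
          intro j hj
          rw [hs _ (by omega), hs _ (by omega)])
        omega
      · have h3 : t < l := by omega
        have h4 := hb (l - t - 1) (by omega)
        rw [hs _ (by omega)] at h4
        have h5 : n - l + (l - t - 1) = n - t - 1 := by omega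
        rw [h5, hlast] at h4
        exact hz0 (by omega) h4
    · push Not at hls
      have hu : s ≤ l - t := by
        by_contra hc
        push Not at hc
        rcases hfirst with h | h
        · omega
        · exact hz1 (by rw [← hrun s (by omega) (by omega)]; exact h)
      by_cases hc : l - t + R ≤ n - t
      · obtain ⟨p, h1, h2, h3⟩ := hR (l - t) hu hc
        exact hz1 (by rw [← hrun p h1 (by omega)]; exact h3)
      · exact hz1 (by rw [← hrun (n - t - 1) (by omega) (by omega)]; exact hlast)

/-- Reversal of the closedness condition. -/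
theorem reverse_closed {A : Type} (W : ℕ → A) (n : ℕ)
    (h : ∃ l, 1 ≤ l ∧ l < n ∧ (∀ p < l, W p = W (n - l + p)) ∧
      ∀ p, p + l ≤ n → (∀ j < l, W (p + j) = W j) → p = 0 ∨ p = n - l) :
    ∃ l, 1 ≤ l ∧ l < n ∧ (∀ p < l, W (n - 1 - p) = W (n - 1 - (n - l + p))) ∧
      ∀ p, p + l ≤ n → (∀ j < l, W (n - 1 - (p + j)) = W (n - 1 - j)) → p = 0 ∨ p = n - l := by
  obtain ⟨l, h1, h2, h3, h4⟩ := h
  refine ⟨l, h1, h2, ?_, ?_⟩
  · intro p hp
    have e1 := h3 (l - 1 - p) (by omega)
    have e2 : n - l + (l - 1 - p) = n - 1 - p := by omega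
    have e3 : n - 1 - (n - l + p) = l - 1 - p := by omega
    rw [e2] at e1
    rw [e3, e1]
  · intro p hp hj
    have e1 := h4 (n - l - p) (by omega) (by
      intro j hjl
      have e2 := hj (l - 1 - j) (by omega)
      have e3 : n - 1 - (p + (l - 1 - j)) = n - l - p + j := by omega
      have e4 : n - 1 - (l - 1 - j) = n - l + j := by omega
      rw [e3, e4] at e2
      rw [e2, h3 j hjl])
    omega

end openword

section cantor

/-- The morphism `a ↦ a b₀³ a b₁³ ⋯ b_{k-1}³ a`, `b_i ↦ b_i^{4k+1}`; `a` is `none` and `b_i` is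
`some i`. -/
def gc (k : ℕ) (c : Option (Fin k)) (d : ℕ) : Option (Fin k) :=
  match c with
  | some i => some i
  | none => if h : d % 4 ≠ 0 ∧ d / 4 < k then some ⟨d / 4, h.2⟩ else none

/-- Its fixed point. -/
def cw (k : ℕ) : ℕ → Option (Fin k) := auto (4 * k + 1) (gc k) none

variable {k : ℕ}

theorem gc_zero : gc k none 0 = none := by simp [gc]

theorem gc_some (i : Fin k) (d : ℕ) : gc k (some i) d = some i := rfl

theorem cw_mul_add (hk : 1 ≤ k) (q d : ℕ) (hd : d < 4 * k + 1) :
    cw k ((4 * k + 1) * q + d) = gc k (cw k q) d :=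
  auto_mul_add (by omega) gc_zero q d hd

theorem gc_eq_none (hk : 1 ≤ k) {c : Option (Fin k)} {d : ℕ} (hd : d < 4 * k + 1)
    (h : gc k c d = none) : c = none ∧ d % 4 = 0 := by
  cases c with
  | some i => simp [gc] at h
  | none =>
    refine ⟨rfl, ?_⟩
    by_contra h4
    have : d % 4 ≠ 0 ∧ d / 4 < k := ⟨h4, by omega⟩
    simp only [gc] at h
    rw [dif_pos this] at h
    simp at h

theorem gc_none_none {d : ℕ} (h : d % 4 = 0) : gc k none d = none := by
  simp only [gc]
  rw [dif_neg (by omega)]

theorem cw_zero : cw k 0 = none := auto_zero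

/-- After a letter `a` there are at least three letters different from `a`. -/
theorem cw_after (hk : 1 ≤ k) (q : ℕ) : ∀ e, 1 ≤ e → e ≤ 3 → cw k q = none →
    cw k (q + e) ≠ none := by
  induction q using Nat.strong_induction_on with
  | _ q ih =>
    intro e h1 h3 hq hc
    have hM : 0 < 4 * k + 1 := by omega
    have e1 : q = (4 * k + 1) * (q / (4 * k + 1)) + q % (4 * k + 1) := (Nat.div_add_mod _ _).symm
    have e2 := Nat.mod_lt q hM
    set q' := q / (4 * k + 1)
    set d := q % (4 * k + 1)
    rw [e1, cw_mul_add hk _ _ e2] at hq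
    obtain ⟨f1, f2⟩ := gc_eq_none hk e2 hq
    by_cases hde : d + e < 4 * k + 1
    · have e3 : q + e = (4 * k + 1) * q' + (d + e) := by omega
      rw [e3, cw_mul_add hk _ _ hde] at hc
      have := (gc_eq_none hk hde hc).2
      omega
    · have hd : d = 4 * k := by omega
      have e3 : q + e = (4 * k + 1) * (q' + 1) + (e - 1) := by
        rw [e1, hd, Nat.mul_succ]; omega
      rw [e3, cw_mul_add hk _ _ (by omega)] at hc
      have hc' := (gc_eq_none hk (by omega) hc).1
      refine ih q' ?_ 1 le_rfl (by norm_num) f1 hc'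
      rw [e1, hd]
      nlinarith [Nat.zero_le (k * q')]

/-- Before a letter `a` there are at least three letters different from `a`. -/
theorem cw_before (hk : 1 ≤ k) {q e : ℕ} (h1 : 1 ≤ e) (h3 : e ≤ 3) (he : e ≤ q)
    (hq : cw k q = none) : cw k (q - e) ≠ none := by
  intro hc
  have := cw_after hk (q - e) e h1 h3 hc
  rw [Nat.sub_add_cancel he] at this
  exact this hq

/-- Consecutive letters different from `a` are equal. -/
theorem cw_step (hk : 1 ≤ k) (p : ℕ) : cw k p ≠ none → cw k (p + 1) ≠ none →
    cw k (p + 1) = cw k p := by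
  induction p using Nat.strong_induction_on with
  | _ p ih =>
    intro h1 h2
    have hM : 0 < 4 * k + 1 := by omega
    have e1 : p = (4 * k + 1) * (p / (4 * k + 1)) + p % (4 * k + 1) := (Nat.div_add_mod _ _).symm
    have e2 := Nat.mod_lt p hM
    set q := p / (4 * k + 1)
    set d := p % (4 * k + 1)
    have e0 : cw k p = gc k (cw k q) d := by rw [e1, cw_mul_add hk _ _ e2]
    by_cases hd : d + 1 < 4 * k + 1
    · have e3 : p + 1 = (4 * k + 1) * q + (d + 1) := by omega
      have e3' : cw k (p + 1) = gc k (cw k q) (d + 1) := by rw [e3, cw_mul_add hk _ _ hd]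
      cases hq : cw k q with
      | some i => rw [e0, e3', hq, gc_some, gc_some]
      | none =>
        rw [e0, hq] at h1
        rw [e3', hq] at h2
        rw [e0, e3', hq]
        have h1' : d % 4 ≠ 0 := fun h => h1 (gc_none_none h)
        have h2' : (d + 1) % 4 ≠ 0 := fun h => h2 (gc_none_none h)
        simp only [gc]
        have h3 : (d + 1) / 4 = d / 4 := by omega
        rw [dif_pos ⟨h2', by omega⟩, dif_pos ⟨h1', by omega⟩]
        simp [h3]
    · have hd' : d = 4 * k := by omega
      have e3 : p + 1 = (4 * k + 1) * (q + 1) + 0 := by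
        rw [e1, hd', Nat.mul_succ]; omega
      have e3' : cw k (p + 1) = gc k (cw k (q + 1)) 0 := by rw [e3, cw_mul_add hk _ _ (by omega)]
      cases hq : cw k q with
      | none =>
        exfalso
        apply h1
        rw [e0, hq]
        exact gc_none_none (by omega)
      | some i =>
        cases hq1 : cw k (q + 1) with
        | none =>
          exfalso
          apply h2
          rw [e3', hq1]
          exact gc_zero
        | some i' =>
          have h3 := ih q (by rw [e1, hd']; nlinarith [Nat.zero_le (k * q)]) (by rw [hq]; simp)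
            (by rw [hq1]; simp)
          rw [hq, hq1] at h3
          rw [e0, e3', hq, hq1, gc_some, gc_some, h3]

/-- A window without the letter `a` is constant. -/
theorem cw_const (hk : 1 ≤ k) (i n : ℕ) (h : ∀ p < n, cw k (i + p) ≠ none) :
    ∀ p < n, cw k (i + p) = cw k i := by
  intro p
  induction p with
  | zero => intro _; rfl
  | succ p ih =>
    intro hp
    rw [← ih (by omega), ← add_assoc]
    exact cw_step hk (i + p) (h p (by omega)) (h (p + 1) hp)

theorem cw_block (hk : 1 ≤ k) (j q r : ℕ) (hr : r < (4 * k + 1) ^ j) (hq : cw k q = none) :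
    cw k ((4 * k + 1) ^ j * q + r) = cw k r :=
  auto_block (by omega) gc_zero j q r hr hq

theorem cw_block_some (hk : 1 ≤ k) (j q r : ℕ) (i : Fin k) (hr : r < (4 * k + 1) ^ j)
    (hq : cw k q = some i) : cw k ((4 * k + 1) ^ j * q + r) = some i :=
  auto_const (by omega) gc_zero (some i) (fun _ => rfl) j q r hr hq

theorem cw_digit (hk : 1 ≤ k) (d : ℕ) (hd : d < 4 * k + 1) : cw k d = gc k none d := by
  have := cw_mul_add hk 0 d hd
  rwa [mul_zero, zero_add, cw_zero] at this

theorem cw_last (hk : 1 ≤ k) (j : ℕ) : cw k ((4 * k + 1) ^ j - 1) = none := by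
  induction j with
  | zero => simp [cw_zero]
  | succ j ih =>
    have h1 : 1 ≤ (4 * k + 1) ^ j := Nat.one_le_pow _ _ (by omega)
    have e1 : (4 * k + 1) ^ (j + 1) - 1 = (4 * k + 1) * ((4 * k + 1) ^ j - 1) + 4 * k := by
      obtain ⟨m, hm⟩ : ∃ m, (4 * k + 1) ^ j = m + 1 := ⟨_, (Nat.sub_add_cancel h1).symm⟩
      rw [pow_succ, hm, Nat.add_sub_cancel]
      have : (m + 1) * (4 * k + 1) = (4 * k + 1) * m + 4 * k + 1 := by ring
      omega
    rw [e1, cw_mul_add hk _ _ (by omega), ih]
    exact gc_none_none (by omega)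

/-- Long windows inside of `A_{j+1}` contain the letter `a`. -/
theorem cw_run (hk : 1 ≤ k) (j u : ℕ) (hu : u + (3 * (4 * k + 1) ^ j + 1) ≤ (4 * k + 1) ^ (j + 1)) :
    ∃ p, u ≤ p ∧ p < u + (3 * (4 * k + 1) ^ j + 1) ∧ cw k p = none := by
  set Q := (4 * k + 1) ^ j with hQ
  have hQ0 : 0 < Q := by positivity
  have hP : (4 * k + 1) ^ (j + 1) = Q * (4 * k) + Q := by rw [pow_succ, ← hQ]; ring
  rw [hP] at hu
  have e1 := Nat.div_add_mod u (4 * Q)
  have e2 := Nat.mod_lt u (show 0 < 4 * Q by omega)
  set e := u / (4 * Q)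
  set ρ := u % (4 * Q)
  have e3 : 4 * Q * e = Q * (4 * e) := by ring
  rw [e3] at e1
  by_cases hρ : ρ < Q
  · have he : 4 * e ≤ 4 * k := by
      by_contra hc
      push Not at hc
      have : Q * (4 * k + 1) ≤ Q * (4 * e) := Nat.mul_le_mul_left _ hc
      rw [Nat.mul_succ] at this
      omega
    refine ⟨Q * (4 * e) + (Q - 1), by omega, by omega, ?_⟩
    rw [hQ, cw_block hk j (4 * e) _ (by omega), cw_last hk]
    rw [cw_digit hk _ (by omega)]
    exact gc_none_none (by omega)
  · push Not at hρ
    have he : 4 * (e + 1) ≤ 4 * k := by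
      by_contra hc
      push Not at hc
      have : Q * (4 * k + 1) ≤ Q * (4 * (e + 1)) := Nat.mul_le_mul_left _ hc
      have e4 : Q * (4 * (e + 1)) = Q * (4 * e) + 4 * Q := by ring
      rw [Nat.mul_succ, e4] at this
      omega
    have e4 : Q * (4 * (e + 1)) = Q * (4 * e) + 4 * Q := by ring
    refine ⟨Q * (4 * (e + 1)), by omega, by omega, ?_⟩
    have := cw_block hk j (4 * (e + 1)) 0 hQ0 (by
      rw [cw_digit hk _ (by omega)]
      exact gc_none_none (by omega))
    rw [add_zero, cw_zero] at this
    exact this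

/-- For the special lengths, closed factors are constant. -/
theorem cw_special (hk : 1 ≤ k) (j i : ℕ)
    (h : ∃ l, 1 ≤ l ∧ l < (4 * k + 1) ^ (j + 1) + (6 * (4 * k + 1) ^ j + 1) ∧
      (∀ p < l, cw k (i + p) =
        cw k (i + ((4 * k + 1) ^ (j + 1) + (6 * (4 * k + 1) ^ j + 1) - l + p))) ∧
      ∀ p, p + l ≤ (4 * k + 1) ^ (j + 1) + (6 * (4 * k + 1) ^ j + 1) →
        (∀ j < l, cw k (i + (p + j)) = cw k (i + j)) → p = 0 ∨
          p = (4 * k + 1) ^ (j + 1) + (6 * (4 * k + 1) ^ j + 1) - l) :
    ∀ p < (4 * k + 1) ^ (j + 1) + (6 * (4 * k + 1) ^ j + 1), cw k (i + p) ≠ none := by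
  set Q := (4 * k + 1) ^ j with hQ
  have hQ0 : 0 < Q := by positivity
  set P := (4 * k + 1) ^ (j + 1) with hP
  have hPQ : 5 * Q ≤ P := by
    rw [hP, pow_succ, ← hQ]; nlinarith
  set n := P + (6 * Q + 1) with hn
  have hn3 : n ≤ 3 * P := by omega
  intro t0 ht0 hnone
  have hP0 : 0 < P := by omega
  have e1 := Nat.div_add_mod (i + t0) P
  have e2 := Nat.mod_lt (i + t0) hP0
  set q := (i + t0) / P
  set r := (i + t0) % P
  clear_value q r
  have hq : cw k q = none := by
    cases hq : cw k q with
    | none => rfl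
    | some c =>
      exfalso
      have := cw_block_some hk (j + 1) q r c e2 hq
      rw [← hP, e1, hnone] at this
      simp at this
  -- right flank
  obtain ⟨c1, hc1⟩ := Option.ne_none_iff_exists'.mp (cw_after hk q 1 le_rfl (by norm_num) hq)
  have hc2 : cw k (q + 2) = some c1 := by
    rw [← hc1]
    exact cw_step hk (q + 1) (by rw [hc1]; simp) (cw_after hk q 2 (by norm_num) (by norm_num) hq)
  have hc3 : cw k (q + 3) = some c1 := by
    rw [← hc2]
    exact cw_step hk (q + 2) (by rw [hc2]; simp) (cw_after hk q 3 (by norm_num) (by norm_num) hq)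
  have hright : ∀ p, P * (q + 1) ≤ p → p < P * (q + 1) + 3 * P → cw k p = some c1 := by
    intro p h1 h2
    have e3 := Nat.div_add_mod p P
    have e4 := Nat.mod_lt p hP0
    have h5 : q + 1 ≤ p / P := (Nat.le_div_iff_mul_le hP0).mpr (by rw [mul_comm]; exact h1)
    have h6 : p / P < q + 4 := (Nat.div_lt_iff_lt_mul hP0).mpr (by
      have : P * (q + 1) + 3 * P = (q + 4) * P := by ring
      omega)
    rw [← e3]
    apply cw_block_some hk (j + 1) _ _ _ e4
    have h7 : p / P = q + 1 ∨ p / P = q + 2 ∨ p / P = q + 3 := by omega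
    rcases h7 with h | h | h <;> rw [h] <;> assumption
  have hmid : ∀ r < P, cw k (P * q + r) = cw k r := fun r hr => cw_block hk (j + 1) q r hr hq
  have hsucc : P * (q + 1) = P * q + P := by ring
  -- left flank
  obtain ⟨c0, hleft⟩ : ∃ c0 : Fin k, ∀ p, p < P * q → P * q ≤ p + 3 * P → cw k p = some c0 := by
    by_cases hq0 : q = 0
    · refine ⟨c1, fun p hp => ?_⟩
      rw [hq0] at hp
      omega
    · have hq4 : 4 ≤ q := by
        by_contra hc
        have := cw_after hk 0 q (by omega) (by omega) cw_zero
        rw [zero_add] at this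
        exact this hq
      obtain ⟨c0, hc0⟩ := Option.ne_none_iff_exists'.mp
        (cw_before hk le_rfl (by norm_num) (by omega) hq : cw k (q - 1) ≠ none)
      have hc0' : cw k (q - 2) = some c0 := by
        rw [← hc0]
        have := cw_step hk (q - 2) (cw_before hk (by norm_num) (by norm_num) (by omega) hq)
          (by rw [show q - 2 + 1 = q - 1 by omega, hc0]; simp)
        rw [show q - 2 + 1 = q - 1 by omega] at this
        exact this.symm
      have hc0'' : cw k (q - 3) = some c0 := by
        rw [← hc0']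
        have := cw_step hk (q - 3) (cw_before hk (by norm_num) (by norm_num) (by omega) hq)
          (by rw [show q - 3 + 1 = q - 2 by omega, hc0']; simp)
        rw [show q - 3 + 1 = q - 2 by omega] at this
        exact this.symm
      refine ⟨c0, fun p h1 h2 => ?_⟩
      have e3 := Nat.div_add_mod p P
      have e4 := Nat.mod_lt p hP0
      have h5 : p / P < q := (Nat.div_lt_iff_lt_mul hP0).mpr (by rw [mul_comm]; exact h1)
      have h6 : q - 3 ≤ p / P := (Nat.le_div_iff_mul_le hP0).mpr (by
        rw [Nat.sub_mul, mul_comm q P]; omega)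
      rw [← e3]
      apply cw_block_some hk (j + 1) _ _ _ e4
      have h7 : p / P = q - 1 ∨ p / P = q - 2 ∨ p / P = q - 3 := by omega
      rcases h7 with h | h | h <;> rw [h] <;> assumption
  -- lengths of the flanks
  set s := P * q - i with hs
  set t := i + n - P * (q + 1) with ht
  have hzero : cw k (P * q) = none := by
    have := hmid 0 hP0
    rwa [add_zero, cw_zero] at this
  have hlast : cw k (P * q + (P - 1)) = none := by
    rw [hmid _ (by omega), hP]
    exact cw_last hk (j + 1)
  have hrun : ∀ u, s ≤ u → u + (3 * Q + 1) ≤ n - t →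
      ∃ p, u ≤ p ∧ p < u + (3 * Q + 1) ∧ cw k (i + p) = none := by
    intro u h1 h2
    obtain ⟨p, h3, h4, h5⟩ := cw_run hk j (i + u - P * q) (by rw [← hQ, ← hP]; omega)
    rw [← hQ] at h4
    refine ⟨P * q + p - i, by omega, by omega, ?_⟩
    rw [show i + (P * q + p - i) = P * q + p by omega, hmid p (by omega)]
    exact h5
  by_cases htR : 3 * Q + 1 ≤ t
  · refine open_word (fun p => cw k (i + p)) none (some c0) (some c1) n s t (3 * Q + 1) (by omega)
      ?_ ?_ (by omega) ?_ ?_ (fun _ => by simp) (by simp) hrun htR (by omega) h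
    · intro p hp
      exact hleft (i + p) (by omega) (by omega)
    · intro p h1 h2
      exact hright (i + p) (by omega) (by omega)
    · show cw k (i + (n - t - 1)) = none
      rw [show i + (n - t - 1) = P * q + (P - 1) by omega]
      exact hlast
    · by_cases hs0 : s = 0
      · exact Or.inl hs0
      · right
        show cw k (i + s) = none
        rw [show i + s = P * q by omega]
        exact hzero
  · push Not at htR
    refine open_word (fun p => cw k (i + (n - 1 - p))) none (some c1) (some c0) n t s (3 * Q + 1)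
      (by omega) ?_ ?_ (by omega) ?_ ?_ (fun _ => by simp) (by simp) ?_ (by omega) (by omega)
      (reverse_closed (fun p => cw k (i + p)) n h)
    · intro p hp
      exact hright (i + (n - 1 - p)) (by omega) (by omega)
    · intro p h1 h2
      exact hleft (i + (n - 1 - p)) (by omega) (by omega)
    · show cw k (i + (n - 1 - (n - s - 1))) = none
      rw [show i + (n - 1 - (n - s - 1)) = P * q by omega]
      exact hzero
    · by_cases ht0 : t = 0
      · exact Or.inl ht0
      · right
        show cw k (i + (n - 1 - t)) = none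
        rw [show i + (n - 1 - t) = P * q + (P - 1) by omega]
        exact hlast
    · intro u h1 h2
      obtain ⟨p, h3, h4, h5⟩ := hrun (n - u - (3 * Q + 1)) (by omega) (by omega)
      refine ⟨n - 1 - p, by omega, by omega, ?_⟩
      rw [show n - 1 - (n - 1 - p) = p by omega]
      exact h5

theorem cw_aperiodic (hk : 1 ≤ k) : Aperiodic (cw k) := by
  rintro ⟨N, p, hp, h⟩
  obtain ⟨j, hj⟩ : ∃ j, N + p < (4 * k + 1) ^ j := ⟨N + p, Nat.lt_pow_self (by omega)⟩
  have h1 : cw k 1 = some ⟨0, hk⟩ := by
    rw [cw_digit hk 1 (by omega)]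
    simp only [gc]
    rw [dif_pos ⟨by norm_num, by omega⟩]
  have h4 : cw k 4 = none := by
    rw [cw_digit hk 4 (by omega)]
    exact gc_none_none (by norm_num)
  have hall : ∀ e, cw k ((4 * k + 1) ^ j + e) = some ⟨0, hk⟩ := by
    intro e
    induction e using Nat.strong_induction_on with
    | _ e ih =>
      by_cases he : e < (4 * k + 1) ^ j
      · have := cw_block_some hk j 1 e _ he h1
        rwa [mul_one] at this
      · push Not at he
        rw [← ih (e - p) (by omega), ← h ((4 * k + 1) ^ j + (e - p)) (by omega)]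
        congr 1
        omega
  have h5 := cw_block hk j 4 0 (by omega) h4
  rw [add_zero, cw_zero] at h5
  have h6 := hall ((4 * k + 1) ^ j * 3)
  rw [show (4 * k + 1) ^ j + (4 * k + 1) ^ j * 3 = (4 * k + 1) ^ j * 4 by ring, h5] at h6
  simp at h6

theorem cw_lower (hk : 1 ≤ k) (n : ℕ) (hn : 1 ≤ n) : k ≤ cl (cw k) n := by
  classical
  have hfin : {w : List (Option (Fin k)) | IsFactor (cw k) w ∧ w.length = n ∧
      ClosedWord w}.Finite :=
    Set.Finite.subset (List.finite_length_eq _ n) (fun w hw => hw.2.1)
  have hsub : Set.range (fun i : Fin k => List.replicate n (some i)) ⊆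
      {w : List (Option (Fin k)) | IsFactor (cw k) w ∧ w.length = n ∧ ClosedWord w} := by
    rintro w ⟨i, rfl⟩
    refine ⟨?_, by simp, closed_replicate n _⟩
    obtain ⟨j, hj⟩ : ∃ j, n < (4 * k + 1) ^ j := ⟨n, Nat.lt_pow_self (by omega)⟩
    have h1 : cw k (4 * i + 1) = some i := by
      rw [cw_digit hk _ (by omega)]
      simp only [gc]
      have h2 : (4 * (i : ℕ) + 1) / 4 = i := by omega
      rw [dif_pos ⟨by omega, by omega⟩]
      simp only [h2, Fin.eta]
    refine ⟨(4 * k + 1) ^ j * (4 * i + 1), ?_⟩
    rw [List.length_replicate]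
    symm
    rw [List.eq_replicate_iff]
    refine ⟨by simp, ?_⟩
    intro b hb
    rw [List.mem_map] at hb
    obtain ⟨r, hr, rfl⟩ := hb
    rw [List.mem_range] at hr
    exact cw_block_some hk j _ r i (by omega) h1
  have hinj : Function.Injective (fun i : Fin k => List.replicate n (some i)) := by
    intro i i' h
    have := List.replicate_right_injective (by omega : n ≠ 0) h
    exact Option.some_injective _ this
  have h1 := Set.ncard_le_ncard hsub hfin
  rw [← Set.image_univ, Set.ncard_image_of_injective _ hinj, Set.ncard_univ, Nat.card_fin] at h1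
  exact h1

theorem cw_upper (hk : 1 ≤ k) (j : ℕ) :
    cl (cw k) ((4 * k + 1) ^ (j + 1) + (6 * (4 * k + 1) ^ j + 1)) ≤ k := by
  classical
  set n := (4 * k + 1) ^ (j + 1) + (6 * (4 * k + 1) ^ j + 1) with hn
  have hn2 : 2 ≤ n := by
    have : 0 < (4 * k + 1) ^ (j + 1) := by positivity
    omega
  have hsub : {w : List (Option (Fin k)) | IsFactor (cw k) w ∧ w.length = n ∧ ClosedWord w} ⊆
      Set.range (fun i : Fin k => List.replicate n (some i)) := by
    rintro w ⟨⟨i, hi⟩, hlen, hcl⟩
    rw [hlen] at hi
    rw [hi] at hcl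
    obtain ⟨l, h1, h2, h3, h4⟩ := closed_factor (cw k) i n hn2 hcl
    have h5 := cw_special hk j i ⟨l, h1, h2, by
      intro p hp
      rw [← add_assoc]
      exact h3 p hp, by
      intro p hp hj
      refine h4 p hp (fun j' hj' => ?_)
      rw [add_assoc]
      exact hj j' hj'⟩
    rw [← hn] at h5
    have h6 := cw_const hk i n h5
    obtain ⟨c, hc⟩ := Option.ne_none_iff_exists'.mp (h5 0 (by omega))
    rw [add_zero] at hc
    refine ⟨c, ?_⟩
    show List.replicate n (some c) = w
    symm
    rw [List.eq_replicate_iff]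
    refine ⟨hlen, ?_⟩
    intro b hb
    rw [hi, List.mem_map] at hb
    obtain ⟨p, hp, rfl⟩ := hb
    rw [List.mem_range] at hp
    rw [h6 p hp, hc]
  have h1 := Set.ncard_le_ncard hsub (Set.finite_range _)
  refine h1.trans ?_
  rw [← Set.image_univ]
  refine (Set.ncard_image_le Set.finite_univ).trans ?_
  rw [Set.ncard_univ, Nat.card_fin]

end cantor

/-- **MP_c8d5ab_co, Q1: yes.** -/
theorem result (k : ℕ) : ∃ (A : Type) (_ : Fintype A) (x : ℕ → A), Aperiodic x ∧ PureMorphic x ∧
    liminf (fun n => (cl x n : ℕ∞)) atTop = k := by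
  rcases Nat.eq_zero_or_pos k with rfl | hk
  · refine ⟨Bool × Bool, inferInstance, pf, pf_aperiodic, pureMorphic_auto le_rfl gp_zero, ?_⟩
    apply le_antisymm
    · apply liminf_le_of_frequently_le'
      rw [frequently_atTop]
      intro N
      refine ⟨2 ^ (N + 1), ?_, ?_⟩
      · have : N < 2 ^ N := Nat.lt_two_pow_self
        rw [pow_succ]; omega
      · rw [pf_cl]
    · simp
  · refine ⟨Option (Fin k), inferInstance, cw k, cw_aperiodic hk,
      pureMorphic_auto (by omega) gc_zero, ?_⟩
    apply le_antisymm
    · apply liminf_le_of_frequently_le'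
      rw [frequently_atTop]
      intro N
      refine ⟨(4 * k + 1) ^ (N + 1) + (6 * (4 * k + 1) ^ N + 1), ?_, ?_⟩
      · have : N < (4 * k + 1) ^ N := Nat.lt_pow_self (by omega)
        omega
      · exact_mod_cast cw_upper hk N
    · apply le_liminf_of_le
      · isBoundedDefault
      · filter_upwards [eventually_ge_atTop 1] with n hn
        exact_mod_cast cw_lower hk n hn

end Pool.Agent.Results.MP_c8d5ab_co.LimInfClosed
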